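import Pool.Agent.H44.DU.Targets

/-!
# Module HT of the board du_modules: the developed heights increase along a word
-/

set_option autoImplicit false

namespace Pool.Agent.H94.DU.HT

open Pool.Agent.H44.DU

theorem pf_HT (hPT : T_PT) (hCR : T_CR) : T_HT := by
  intro n S t x w r r' hrun
  rw [S.run_snoc] at hrun
  obtain ⟨h1, h2, h3⟩ := hrun
  rw [S.run_append, S.run_single] at h1
  obtain ⟨-, -, h4⟩ := h1
  set y := S.g t (w ++ [r]) x with hy
  have hyg : y = S.mv t r (S.g t w x) := by rw [hy, S.g_append, S.g_single]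
  have hne : xi t (S.P r) ≠ xi t (S.Q r) := (h4.1.trans h4.2).ne'
  have hA : S.A (w ++ [r]) = S.A w * S.a r := by rw [S.A_append]; simp [Surf.A]
  have hB : (S.B (w ++ [r])).im = S.a r * (S.B w).im + (S.b r).im := by
    rw [S.B_append]
    simp [Surf.A, Surf.B]
  have hAw := (S.A_pos w).ne'
  have har := (S.a_pos r).ne'
  have hpt : (S.pt t (S.gl r) y).im = S.a r * (S.pt t r (S.g t w x)).im + (S.b r).im := by
    rw [hyg, ← (hPT n S t r hne).2.1 (S.g t w x)]
    simp
  have hkey : ((S.pt t (S.gl r) y).im - (S.B (w ++ [r])).im) / S.A (w ++ [r]) = S.ht t w r x := by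
    rw [hpt, hB, hA, Surf.ht]
    field_simp
    ring
  have hthird : S.ht t (w ++ [r]) r' x =
      ((S.pt t (S.gl r) y).im - (S.B (w ++ [r])).im) / S.A (w ++ [r]) +
        S.sg t r r' y / S.A (w ++ [r]) := by
    rw [Surf.ht, Surf.sg, ← add_div]
    congr 1
    ring
  refine ⟨?_, ?_, hthird⟩
  · rw [hthird, hkey]
    ring
  · have hI : S.InI t (S.gl r) y := by
      rw [hyg, S.inI_gl_iff]
      exact h4
    have h5 := (hCR n S t y).1 (S.gl r) r' h2 hI h3
    rw [Surf.sg]
    linarith

end Pool.Agent.H94.DU.HT
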