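import Pool.Agent.H44.DU.Targets

/-!
# Module NE of the board du_modules: long words in an interval of leaves which do not reach the
outside
-/

set_option autoImplicit false

namespace Pool.Agent.H94.DU.NE

open Pool.Agent.H44.DU

theorem pf_NE (hEX : T_EX) : T_NE := by
  intro n S t I r c d hcd h k
  induction k with
  | zero =>
    refine ⟨[], (c + d) / 2, rfl, ?_, by linarith, by linarith, ?_⟩
    · intro s hs
      rw [List.mem_singleton] at hs
      subst hs
      by_contra hI
      apply (h ((c + d) / 2) (by linarith) (by linarith)).2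
      refine ⟨[], ⟨[], s, rfl, ?_, hI⟩, ?_⟩
      · intro s' hs'
        exact absurd hs' List.not_mem_nil
      · rw [S.run_single]
        exact (h ((c + d) / 2) (by linarith) (by linarith)).1
    · rw [S.run_single]
      exact (h ((c + d) / 2) (by linarith) (by linarith)).1
  | succ k ih =>
    obtain ⟨w, y, hk, hI, hc, hd, hrun⟩ := ih
    obtain ⟨w0, l, hw0⟩ : ∃ w0 l, r :: w = w0 ++ [l] := by
      rcases List.eq_nil_or_concat (r :: w) with h0 | ⟨L, b, h0⟩
      · exact absurd h0 (List.cons_ne_nil r w)
      · exact ⟨L, b, by rw [h0, List.concat_eq_append]⟩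
    have hε : 0 < min (y - c) (d - y) := lt_min (by linarith) (by linarith)
    rw [hw0] at hrun
    obtain ⟨r', x', hx', hrun'⟩ := hEX n S t y (min (y - c) (d - y)) w0 l hε hrun
    rw [← hw0, List.cons_append] at hrun'
    rw [abs_lt] at hx'
    have h1 := min_le_left (y - c) (d - y)
    have h2 := min_le_right (y - c) (d - y)
    have hcx : c < x' := by linarith [hx'.1]
    have hdx : x' < d := by linarith [hx'.2]
    have hI' : I r' := by
      by_contra hcon
      apply (h x' hcx hdx).2
      exact ⟨w ++ [r'], ⟨r :: w, r', rfl, hI, hcon⟩, hrun'⟩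
    refine ⟨w ++ [r'], x', ?_, ?_, hcx, hdx, hrun'⟩
    · rw [List.length_append, hk, List.length_singleton]
    · intro s hs
      rw [List.mem_cons, List.mem_append, List.mem_singleton] at hs
      rcases hs with hs | hs | hs
      · exact hI s (by rw [hs]; exact List.mem_cons_self)
      · exact hI s (List.mem_cons_of_mem r hs)
      · rw [hs]
        exact hI'

end Pool.Agent.H94.DU.NE
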