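import Pool.Agent.H44.DU.Targets

/-!
# Module PT of the board du_modules: the points on the sides
-/

set_option autoImplicit false

namespace Pool.Agent.H94.DU.PT

open Pool.Agent.H44.DU

variable {n : ℕ} (S : Surf n)

theorem xi_pt (t : ℝ) (s : Side n) (h : xi t (S.P s) ≠ xi t (S.Q s)) (x : ℝ) :
    xi t (S.pt t s x) = x := by
  have h' : xi t (S.P s) - xi t (S.Q s) ≠ 0 := sub_ne_zero.2 h
  rw [Surf.pt, xi_add, xi_mul, xi_sub, Surf.lam]
  field_simp
  ring

theorem pt_glue (t : ℝ) (s : Side n) (h : xi t (S.P s) ≠ xi t (S.Q s)) (x : ℝ) :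
    S.a s * S.pt t s x + S.b s = S.pt t (S.gl s) (S.mv t s x) := by
  have h' : xi t (S.P s) - xi t (S.Q s) ≠ 0 := sub_ne_zero.2 h
  have ha := (S.a_pos s).ne'
  have hl : S.lam t (S.gl s) (S.mv t s x) = 1 - S.lam t s x := by
    rw [Surf.lam, Surf.lam, S.xi_P_gl, S.xi_Q_gl]
    simp only [Surf.mv]
    have h2 : S.a s * xi t (S.Q s) + xi t (S.b s) - (S.a s * xi t (S.P s) + xi t (S.b s))
        = -(S.a s * (xi t (S.P s) - xi t (S.Q s))) := by ring
    have h3 : S.a s * xi t (S.Q s) + xi t (S.b s) - (S.a s * x + xi t (S.b s))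
        = -(S.a s * (x - xi t (S.Q s))) := by ring
    rw [h2, h3, neg_div_neg_eq, mul_div_mul_left _ _ ha, eq_sub_iff_add_eq, ← add_div,
      div_eq_one_iff_eq h']
    ring
  rw [Surf.pt, Surf.pt, hl, S.P_gl, S.Q_gl]
  push_cast
  ring

theorem pt_P (t : ℝ) (s : Side n) : S.pt t s (xi t (S.P s)) = S.P s := by
  simp [Surf.pt, Surf.lam]

theorem pt_Q (t : ℝ) (s : Side n) (h : xi t (S.P s) ≠ xi t (S.Q s)) :
    S.pt t s (xi t (S.Q s)) = S.Q s := by
  have h' : xi t (S.P s) - xi t (S.Q s) ≠ 0 := sub_ne_zero.2 h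
  simp [Surf.pt, Surf.lam, div_self h']

theorem pt_mem (t : ℝ) (s : Side n) (x : ℝ) (hx : S.InJ t s x ∨ S.InI t s x) :
    S.pt t s x ∈ openSegment ℝ (S.P s) (S.Q s) := by
  have hl : 0 < S.lam t s x ∧ S.lam t s x < 1 := by
    rcases hx with ⟨h1, h2⟩ | ⟨h1, h2⟩
    · constructor
      · exact div_pos (by linarith) (by linarith)
      · rw [Surf.lam, div_lt_one (by linarith)]
        linarith
    · have h3 : S.lam t s x = (x - xi t (S.P s)) / (xi t (S.Q s) - xi t (S.P s)) := by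
        rw [Surf.lam, ← neg_div_neg_eq, neg_sub, neg_sub]
      rw [h3]
      constructor
      · exact div_pos (by linarith) (by linarith)
      · rw [div_lt_one (by linarith)]
        linarith
  refine ⟨1 - S.lam t s x, S.lam t s x, by linarith [hl.2], hl.1, by ring, ?_⟩
  rw [Surf.pt, Complex.real_smul, Complex.real_smul]
  push_cast
  ring

theorem of_mem (t : ℝ) (s : Side n) (h : xi t (S.P s) ≠ xi t (S.Q s)) (z : ℂ)
    (hz : z ∈ openSegment ℝ (S.P s) (S.Q s)) :
    S.pt t s (xi t z) = z ∧ (xi t (S.Q s) < xi t (S.P s) → S.InJ t s (xi t z)) ∧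
      (xi t (S.P s) < xi t (S.Q s) → S.InI t s (xi t z)) := by
  have h' : xi t (S.P s) - xi t (S.Q s) ≠ 0 := sub_ne_zero.2 h
  obtain ⟨u, l, hu, hl, hul, rfl⟩ := hz
  have hu1 : u = 1 - l := by linarith
  subst hu1
  rw [Complex.real_smul, Complex.real_smul, xi_add, xi_mul, xi_mul]
  refine ⟨?_, ?_, ?_⟩
  · have h2 : S.lam t s ((1 - l) * xi t (S.P s) + l * xi t (S.Q s)) = l := by
      rw [Surf.lam, div_eq_iff h']
      ring
    rw [Surf.pt, h2]
    push_cast
    ring
  · intro hlt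
    constructor <;> nlinarith
  · intro hlt
    constructor <;> nlinarith

theorem pf_PT : T_PT := by
  intro n S t s h
  exact ⟨xi_pt S t s h, pt_glue S t s h, pt_P S t s, pt_Q S t s h, pt_mem S t s,
    of_mem S t s h⟩

end Pool.Agent.H94.DU.PT
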