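import Pool.Agent.H44.DU.Targets2

/-!
# Module RML of the board du_modules (MP_81a758_an): the reversed surface
-/

set_option autoImplicit false

namespace Pool.Agent.H94.DU.RML

open Pool.Agent.H44.DU

theorem hh_neg {n : ℕ} (α : Fin n → ℝ) (β : Fin n → ℂ) (i : Fin n) (z : ℂ) :
    hh α (fun i => -β i) i (-z) = hh α β i z := by
  unfold hh
  simp only [Complex.neg_re, Complex.neg_im]
  ring

theorem pf_RML : T_RML := by
  intro n S J up lev α β hH hC
  have hP : ∀ s, S.rev.P s = -S.P s := fun s => rfl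
  have hQ : ∀ s, S.rev.Q s = -S.Q s := fun s => rfl
  have hgl : S.rev.gl = S.gl := rfl
  have ha : S.rev.a = S.a := rfl
  have hout : ∀ t s, S.rev.Out t s → S.Out t (S.gl s) := by
    intro t s hs
    unfold Surf.Out at hs ⊢
    rw [hP, hQ] at hs
    rw [S.P_gl, S.Q_gl]
    simp only [Complex.neg_re, Complex.neg_im, Complex.add_re, Complex.add_im, Complex.mul_re,
      Complex.mul_im, Complex.ofReal_re, Complex.ofReal_im, zero_mul, sub_zero, add_zero] at hs ⊢
    have h1 := S.a_pos s
    have h2 : (S.P s).re - t * (S.P s).im < (S.Q s).re - t * (S.Q s).im := by linarith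
    nlinarith [mul_lt_mul_of_pos_left h2 h1]
  refine ⟨⟨?_, ?_, ?_, ?_, ?_, ?_, ?_⟩, hC⟩
  · intro i k
    have : S.rev.v i k = -S.v i k := rfl
    rw [this, hh_neg]
    exact hH.nonneg i k
  · intro i hi
    exact hH.const i (neg_eq_zero.1 hi)
  · intro t ht i hi
    rw [neg_neg] at hi
    have h1 := hH.dir_down t ht i hi
    simp only [Complex.neg_re, Complex.neg_im]
    linarith
  · intro t ht i hi
    rw [neg_neg, not_not] at hi
    have h1 := hH.dir_up t ht i hi
    simp only [Complex.neg_re, Complex.neg_im]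
    linarith
  · intro t ht s hs
    have h1 := hH.level t ht (S.gl s) (hout t s hs)
    rw [S.gl_gl] at h1
    rw [hgl]
    exact neg_le_neg h1
  · intro t ht s hs hl hu
    rw [neg_neg] at hu
    rw [hgl] at hl
    have hl' := neg_inj.1 hl
    have h1 := hH.glue_down t ht (S.gl s) (hout t s hs) (by rw [S.gl_gl]; exact hl'.symm)
      (by rw [← hl']; exact hu)
    rw [S.gl_gl] at h1
    rw [hgl, ha, hP, hQ, hP, hQ, hh_neg, hh_neg, hh_neg, hh_neg]
    have h3 : S.a s * S.a (S.gl s) = 1 := by rw [mul_comm]; exact S.a_gl_mul s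
    constructor
    · have h2 := mul_le_mul_of_nonneg_left h1.2 (S.a_pos s).le
      rw [← mul_assoc, h3, one_mul] at h2
      exact h2
    · have h2 := mul_le_mul_of_nonneg_left h1.1 (S.a_pos s).le
      rw [← mul_assoc, h3, one_mul] at h2
      exact h2
  · intro t ht s hs hl hu
    rw [neg_neg, not_not] at hu
    rw [hgl] at hl
    have hl' := neg_inj.1 hl
    have h1 := hH.glue_up t ht (S.gl s) (hout t s hs) (by rw [S.gl_gl]; exact hl'.symm)
      (by rw [← hl']; exact hu)
    rw [S.gl_gl] at h1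
    rw [hgl, ha, hP, hQ, hP, hQ, hh_neg, hh_neg, hh_neg, hh_neg]
    have h3 : S.a s * S.a (S.gl s) = 1 := by rw [mul_comm]; exact S.a_gl_mul s
    constructor
    · have h2 := mul_le_mul_of_nonneg_left h1.2 (S.a_pos s).le
      rw [← mul_assoc, h3, one_mul] at h2
      exact h2
    · have h2 := mul_le_mul_of_nonneg_left h1.1 (S.a_pos s).le
      rw [← mul_assoc, h3, one_mul] at h2
      exact h2

end Pool.Agent.H94.DU.RML
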