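import Pool.Agent.H44.DU.Targets

/-!
# Module RV of the board du_modules: reversing a word
-/

set_option autoImplicit false

namespace Pool.Agent.H94.DU.RV

open Pool.Agent.H44.DU

variable {n : ℕ} (S : Surf n)

theorem rev_mv (t : ℝ) (s : Side n) (x : ℝ) : S.rev.mv t s (-x) = -S.mv t s x := by
  have h1 : S.rev.a s = S.a s := rfl
  have h2 : S.rev.b s = -S.b s := rfl
  rw [Surf.mv, Surf.mv, h1, h2, xi_neg]
  ring

theorem rev_inJ (t : ℝ) (s : Side n) (x : ℝ) : S.rev.InJ t s (-x) ↔ S.InI t s x := by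
  have h1 : S.rev.Q s = -S.Q s := rfl
  have h2 : S.rev.P s = -S.P s := rfl
  rw [Surf.InJ, Surf.InI, h1, h2, xi_neg, xi_neg, neg_lt_neg_iff, neg_lt_neg_iff]
  tauto

theorem rev_g (t : ℝ) (w : List (Side n)) (x : ℝ) :
    S.rev.g t ((w.map S.gl).reverse) (-S.g t w x) = -x := by
  induction w generalizing x with
  | nil => rw [List.map_nil, List.reverse_nil, S.rev.g_nil, S.g_nil]
  | cons r w ih =>
    rw [List.map_cons, List.reverse_cons, S.rev.g_append, S.g_cons, ih, S.rev.g_single, rev_mv,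
      S.mv_gl]

theorem pf_RV : T_RV := by
  intro n S t x s w
  induction w generalizing s x with
  | nil =>
    intro h1 _ _
    rw [List.map_nil, List.reverse_nil, List.nil_append, S.rev.run_single, S.g_nil, rev_inJ]
    exact h1
  | cons r w ih =>
    intro h1 h2 h3
    obtain ⟨a1, a2, a3⟩ := h2
    have b1 : S.InI t (S.gl r) (S.mv t r x) := (S.inI_gl_iff t r x).2 a1
    have b2 := ih (S.mv t r x) (S.gl r) b1 a3 a2
    rw [List.map_cons, List.reverse_cons, S.rev.run_snoc, S.g_cons]
    refine ⟨b2, ?_, ?_⟩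
    · have h4 : S.rev.gl (S.gl r) = r := S.gl_gl r
      rw [h4]
      exact (h3 r (by simp)).symm
    · rw [S.rev.g_append, rev_g, S.rev.g_single, rev_mv, S.mv_gl, rev_inJ]
      exact h1

end Pool.Agent.H94.DU.RV
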